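import Pool.Agent.W927.MT.Stm

/-!
Degrees and encoded structure of the explicit graph `G0`.
-/

namespace Pool.Agent.W872.MT.A

open Pool.Agent.W927.MT

variable {Y : Type} {σ : Bool → Y → Y}

theorem adj_iff (v w : V0 Y) : (G0 σ).Adj v w ↔ v ≠ w ∧ (rel0 σ v w ∨ rel0 σ w v) := by
  simp [G0, SimpleGraph.fromRel_adj]

theorem adj_hub_hub (n n' : ℕ) (y y' : Y) :
    ¬ (G0 σ).Adj ((n, .hub), y) ((n', .hub), y') := by
  simp [adj_iff, rel0]

theorem adj_hub_port (n n' : ℕ) (y y' : Y) (j : Fin 5) :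
    (G0 σ).Adj ((n, .hub), y) ((n', .port j), y') ↔ n' = n ∧ y' = y := by
  simp [adj_iff, rel0]

theorem adj_hub_leaf (n n' : ℕ) (y y' : Y) (j k : Fin 5) :
    ¬ (G0 σ).Adj ((n, .hub), y) ((n', .leaf j k), y') := by
  simp [adj_iff, rel0]

theorem adj_leaf_leaf (n n' : ℕ) (y y' : Y) (j k j' k' : Fin 5) :
    ¬ (G0 σ).Adj ((n, .leaf j k), y) ((n', .leaf j' k'), y') := by
  simp [adj_iff, rel0]

theorem adj_port_leaf (n n' : ℕ) (y y' : Y) (j j' k : Fin 5) :
    (G0 σ).Adj ((n, .port j), y) ((n', .leaf j' k), y') ↔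
      n' = n ∧ y' = y ∧ j' = j ∧ k.val < lf j := by
  simp [adj_iff, rel0]

theorem adj_port_port (hi : ∀ j y, σ j (σ j y) = y) (hne : ∀ j y, σ j y ≠ y)
    (n n' : ℕ) (y y' : Y) (j j' : Fin 5) :
    (G0 σ).Adj ((n, .port j), y) ((n', .port j'), y') ↔
      (j = 0 ∧ j' = 0 ∧ n' = n ∧ y' = σ false y) ∨ (j = 1 ∧ j' = 1 ∧ n' = n ∧ y' = σ true y) ∨
      (j = 2 ∧ j' = 4 ∧ n' = chn false n ∧ y' = y) ∨ (j = 3 ∧ j' = 4 ∧ n' = chn true n ∧ y' = y) ∨
      (j = 4 ∧ j' = 2 ∧ n = chn false n' ∧ y' = y) ∨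
      (j = 4 ∧ j' = 3 ∧ n = chn true n' ∧ y' = y) := by
  have key : ∀ i, (y = σ i y' ↔ y' = σ i y) := fun i =>
    ⟨fun h => by rw [h, hi], fun h => by rw [h, hi]⟩
  have hne' : ∀ i, y ≠ σ i y := fun i h => hne i y h.symm
  fin_cases j <;> fin_cases j' <;> simp [adj_iff, rel0, key] <;> aesop

theorem nb_of (v : V0 Y) (K : Finset J) (g : J → V0 Y) (hg : ∀ b, (g b).1.2 = b)
    (h : ∀ w, (G0 σ).Adj v w ↔ ∃ b ∈ K, w = g b) :
    ((G0 σ).neighborSet v).encard = K.card ∧ dg (G0 σ) v = K.card := by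
  have hs : (G0 σ).neighborSet v = g '' (K : Set J) := by
    ext w
    rw [SimpleGraph.mem_neighborSet, h]
    constructor
    · rintro ⟨b, hb, rfl⟩
      exact ⟨b, hb, rfl⟩
    · rintro ⟨b, hb, rfl⟩
      exact ⟨b, hb, rfl⟩
  have hinj : Function.Injective g := fun a b hab => by rw [← hg a, hab, hg b]
  constructor
  · rw [hs, hinj.encard_image, Set.encard_coe_eq_coe_finsetCard]
  · rw [dg, hs, Set.ncard_image_of_injective _ hinj, Set.ncard_coe_finset]

theorem nb_hub (n : ℕ) (y : Y) :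
    ((G0 σ).neighborSet ((n, .hub), y)).encard = 5 ∧ dg (G0 σ) ((n, .hub), y) = 5 := by
  have := nb_of (σ := σ) ((n, .hub), y) (Finset.univ.image J.port) (fun b => ((n, b), y))
    (fun _ => rfl) (by
      rintro ⟨⟨n', a⟩, y'⟩
      cases a with
      | hub => simp [adj_hub_hub]
      | port j => simp [adj_hub_port]
      | leaf j k => simp [adj_hub_leaf])
  have hc : (Finset.univ.image J.port).card = 5 := by decide
  rw [hc] at this
  exact_mod_cast this

theorem adj_port_hub (n n' : ℕ) (y y' : Y) (j : Fin 5) :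
    (G0 σ).Adj ((n, .port j), y) ((n', .hub), y') ↔ n' = n ∧ y' = y := by
  rw [SimpleGraph.adj_comm, adj_hub_port]
  constructor <;> rintro ⟨rfl, rfl⟩ <;> exact ⟨rfl, rfl⟩

theorem adj_leaf_hub (n n' : ℕ) (y y' : Y) (j k : Fin 5) :
    ¬ (G0 σ).Adj ((n, .leaf j k), y) ((n', .hub), y') := by
  rw [SimpleGraph.adj_comm]
  exact adj_hub_leaf _ _ _ _ _ _

theorem adj_leaf_port (n n' : ℕ) (y y' : Y) (j j' k : Fin 5) :
    (G0 σ).Adj ((n, .leaf j k), y) ((n', .port j'), y') ↔
      n' = n ∧ y' = y ∧ j' = j ∧ k.val < lf j := by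
  rw [SimpleGraph.adj_comm, adj_port_leaf]
  constructor
  · rintro ⟨rfl, rfl, rfl, h⟩
    exact ⟨rfl, rfl, rfl, h⟩
  · rintro ⟨rfl, rfl, rfl, h⟩
    exact ⟨rfl, rfl, rfl, h⟩

/-- The leaves at a port. -/
def lv (j : Fin 5) : Finset J := ((Finset.univ : Finset (Fin 5)).filter (fun k => k.val < lf j)).image (J.leaf j)

theorem mem_lv {j j' k : Fin 5} : J.leaf j' k ∈ lv j ↔ j' = j ∧ k.val < lf j := by
  simp only [lv, Finset.mem_image, Finset.mem_filter, Finset.mem_univ, true_and, J.leaf.injEq]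
  constructor
  · rintro ⟨a, ha, rfl, rfl⟩
    exact ⟨rfl, ha⟩
  · rintro ⟨rfl, h⟩
    exact ⟨k, h, rfl, rfl⟩

theorem hub_lv {j : Fin 5} : J.hub ∉ lv j := by simp [lv]

theorem port_lv {j j' : Fin 5} : J.port j' ∉ lv j := by simp [lv]

theorem nb_leaf (n : ℕ) (y : Y) (j k : Fin 5) :
    ((G0 σ).neighborSet ((n, .leaf j k), y)).encard ≤ 1 ∧ dg (G0 σ) ((n, .leaf j k), y) ≤ 1 := by
  have := nb_of (σ := σ) ((n, .leaf j k), y) (if k.val < lf j then {J.port j} else ∅)
    (fun b => ((n, b), y)) (fun _ => rfl) (by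
      rintro ⟨⟨n', a⟩, y'⟩
      cases a with
      | hub => split_ifs <;> simp [adj_leaf_hub]
      | port j => split_ifs with h <;> simp [adj_leaf_port, h] <;> tauto
      | leaf j k => split_ifs <;> simp [adj_leaf_leaf])
  rw [this.1, this.2]
  split_ifs <;> simp

theorem nb_port0 (hi : ∀ j y, σ j (σ j y) = y) (hne : ∀ j y, σ j y ≠ y) (n : ℕ) (y : Y) :
    ((G0 σ).neighborSet ((n, .port 0), y)).encard = 2 ∧ dg (G0 σ) ((n, .port 0), y) = 2 := by
  have := nb_of (σ := σ) ((n, .port 0), y) ({J.hub, J.port 0} ∪ lv 0)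
    (fun b => ((n, b), if b = J.port 0 then σ false y else y))
    (fun _ => rfl) (by
      rintro ⟨⟨n', a⟩, y'⟩
      cases a with
      | hub => simp [adj_port_hub]
      | port j => 
        rw [adj_port_port hi hne]
        simp [port_lv]
        fin_cases j <;> simp
      | leaf j k => simp [adj_port_leaf, mem_lv]; tauto)
  have hc : ({J.hub, J.port 0} ∪ lv 0).card = 2 := by decide
  rw [hc] at this
  exact_mod_cast this

theorem nb_port1 (hi : ∀ j y, σ j (σ j y) = y) (hne : ∀ j y, σ j y ≠ y) (n : ℕ) (y : Y) :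
    ((G0 σ).neighborSet ((n, .port 1), y)).encard = 3 ∧ dg (G0 σ) ((n, .port 1), y) = 3 := by
  have := nb_of (σ := σ) ((n, .port 1), y) ({J.hub, J.port 1} ∪ lv 1)
    (fun b => ((n, b), if b = J.port 1 then σ true y else y))
    (fun _ => rfl) (by
      rintro ⟨⟨n', a⟩, y'⟩
      cases a with
      | hub => simp [adj_port_hub]
      | port j =>
        rw [adj_port_port hi hne]
        simp [port_lv]
        fin_cases j <;> simp
      | leaf j k => simp [adj_port_leaf, mem_lv]; tauto)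
  have hc : ({J.hub, J.port 1} ∪ lv 1).card = 3 := by decide
  rw [hc] at this
  exact_mod_cast this

theorem nb_port2 (hi : ∀ j y, σ j (σ j y) = y) (hne : ∀ j y, σ j y ≠ y) (n : ℕ) (y : Y) :
    ((G0 σ).neighborSet ((n, .port 2), y)).encard = 4 ∧ dg (G0 σ) ((n, .port 2), y) = 4 := by
  have := nb_of (σ := σ) ((n, .port 2), y) ({J.hub, J.port 4} ∪ lv 2)
    (fun b => ((if b = J.port 4 then chn false n else n, b), y))
    (fun _ => rfl) (by
      rintro ⟨⟨n', a⟩, y'⟩
      cases a with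
      | hub => simp [adj_port_hub]
      | port j =>
        rw [adj_port_port hi hne]
        simp [port_lv]
        fin_cases j <;> simp
      | leaf j k => simp [adj_port_leaf, mem_lv]; tauto)
  have hc : ({J.hub, J.port 4} ∪ lv 2).card = 4 := by decide
  rw [hc] at this
  exact_mod_cast this

theorem nb_port3 (hi : ∀ j y, σ j (σ j y) = y) (hne : ∀ j y, σ j y ≠ y) (n : ℕ) (y : Y) :
    ((G0 σ).neighborSet ((n, .port 3), y)).encard = 6 ∧ dg (G0 σ) ((n, .port 3), y) = 6 := by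
  have := nb_of (σ := σ) ((n, .port 3), y) ({J.hub, J.port 4} ∪ lv 3)
    (fun b => ((if b = J.port 4 then chn true n else n, b), y))
    (fun _ => rfl) (by
      rintro ⟨⟨n', a⟩, y'⟩
      cases a with
      | hub => simp [adj_port_hub]
      | port j =>
        rw [adj_port_port hi hne]
        simp [port_lv]
        fin_cases j <;> simp
      | leaf j k => simp [adj_port_leaf, mem_lv]; tauto)
  have hc : ({J.hub, J.port 4} ∪ lv 3).card = 6 := by decide
  rw [hc] at this
  exact_mod_cast this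

theorem nb_port4 (hi : ∀ j y, σ j (σ j y) = y) (hne : ∀ j y, σ j y ≠ y) (n : ℕ) (y : Y) :
    ((G0 σ).neighborSet ((n, .port 4), y)).encard = 7 ∧ dg (G0 σ) ((n, .port 4), y) = 7 := by
  rcases Nat.even_or_odd n with he | ho
  · have := nb_of (σ := σ) ((n, .port 4), y) ({J.hub, J.port 2} ∪ lv 4)
      (fun b => ((if b = J.port 2 then n / 2 else n, b), y))
      (fun _ => rfl) (by
        rintro ⟨⟨n', a⟩, y'⟩
        cases a with
        | hub => simp [adj_port_hub]
        | port j =>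
          rw [adj_port_port hi hne]
          rw [Nat.even_iff] at he
          fin_cases j <;> simp [chn, port_lv]
          · intro _
            omega
          · intro h
            omega
        | leaf j k => simp [adj_port_leaf, mem_lv]; tauto)
    have hc : ({J.hub, J.port 2} ∪ lv 4).card = 7 := by decide
    rw [hc] at this
    exact_mod_cast this
  · have := nb_of (σ := σ) ((n, .port 4), y) ({J.hub, J.port 3} ∪ lv 4)
      (fun b => ((if b = J.port 3 then n / 2 else n, b), y))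
      (fun _ => rfl) (by
        rintro ⟨⟨n', a⟩, y'⟩
        cases a with
        | hub => simp [adj_port_hub]
        | port j =>
          rw [adj_port_port hi hne]
          rw [Nat.odd_iff] at ho
          fin_cases j <;> simp [chn, port_lv]
          · intro h
            omega
          · intro _
            omega
        | leaf j k => simp [adj_port_leaf, mem_lv]; tauto)
    have hc : ({J.hub, J.port 3} ∪ lv 4).card = 7 := by decide
    rw [hc] at this
    exact_mod_cast this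

/-- The degrees of the ports. -/
def dp : Fin 5 → ℕ := ![2, 3, 4, 6, 7]

theorem dg_port (hi : ∀ j y, σ j (σ j y) = y) (hne : ∀ j y, σ j y ≠ y) (n : ℕ) (y : Y)
    (j : Fin 5) : dg (G0 σ) ((n, .port j), y) = dp j := by
  fin_cases j
  · exact (nb_port0 hi hne n y).2
  · exact (nb_port1 hi hne n y).2
  · exact (nb_port2 hi hne n y).2
  · exact (nb_port3 hi hne n y).2
  · exact (nb_port4 hi hne n y).2

theorem encard_le (hi : ∀ j y, σ j (σ j y) = y) (hne : ∀ j y, σ j y ≠ y) (v : V0 Y) :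
    ((G0 σ).neighborSet v).encard ≤ 7 := by
  obtain ⟨⟨n, a⟩, y⟩ := v
  cases a with
  | hub => rw [(nb_hub n y).1]; norm_num
  | port j =>
    fin_cases j
    · exact (nb_port0 hi hne n y).1.le.trans (by norm_num)
    · exact (nb_port1 hi hne n y).1.le.trans (by norm_num)
    · exact (nb_port2 hi hne n y).1.le.trans (by norm_num)
    · exact (nb_port3 hi hne n y).1.le.trans (by norm_num)
    · exact (nb_port4 hi hne n y).1.le
  | leaf j k => exact (nb_leaf n y j k).1.trans (by norm_num)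

theorem hub_of_dg (hi : ∀ j y, σ j (σ j y) = y) (hne : ∀ j y, σ j y ≠ y) {v : V0 Y}
    (h : dg (G0 σ) v = 5) : v.1.2 = .hub := by
  obtain ⟨⟨n, a⟩, y⟩ := v
  cases a with
  | hub => rfl
  | port j =>
    rw [dg_port hi hne] at h
    revert h
    fin_cases j <;> simp [dp]
  | leaf j k =>
    have := (nb_leaf (σ := σ) n y j k).2
    omega

theorem port_of_dg (hi : ∀ j y, σ j (σ j y) = y) (hne : ∀ j y, σ j y ≠ y) {v : V0 Y} {j : Fin 5}
    (h : dg (G0 σ) v = dp j) : v.1.2 = .port j := by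
  obtain ⟨⟨n, a⟩, y⟩ := v
  cases a with
  | hub =>
    rw [(nb_hub n y).2] at h
    revert h
    fin_cases j <;> simp [dp]
  | port j' =>
    rw [dg_port hi hne] at h
    have : Function.Injective dp := by decide
    rw [this h]
  | leaf j' k =>
    have := (nb_leaf (σ := σ) n y j' k).2
    rw [h] at this
    revert this
    fin_cases j <;> simp [dp]

theorem sr (hi : ∀ j y, σ j (σ j y) = y) (hne : ∀ j y, σ j y ≠ y) (j : Bool) (n : ℕ) (y : Y)
    (w : V0 Y) : Sr (G0 σ) j ((n, .hub), y) w ↔ w = ((n, .hub), σ j y) := by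
  have hd : dS j = dp (if j then 1 else 0) := by cases j <;> rfl
  constructor
  · rintro ⟨-, hw, u, x, h1, h2, h3, hu, hx⟩
    have hw := hub_of_dg hi hne hw
    rw [hd] at hu hx
    have hu := port_of_dg hi hne hu
    have hx := port_of_dg hi hne hx
    obtain ⟨⟨n1, a1⟩, y1⟩ := u
    obtain ⟨⟨n2, a2⟩, y2⟩ := x
    obtain ⟨⟨n3, a3⟩, y3⟩ := w
    simp only at hw hu hx
    subst hw hu hx
    rw [adj_hub_port] at h1
    rw [adj_port_port hi hne] at h2
    rw [adj_port_hub] at h3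
    obtain ⟨rfl, rfl⟩ := h1
    obtain ⟨rfl, rfl⟩ := h3
    cases j <;> simp at h2 <;> simp [h2]
  · rintro rfl
    refine ⟨(nb_hub _ _).2, (nb_hub _ _).2, ((n, .port (if j then 1 else 0)), y),
      ((n, .port (if j then 1 else 0)), σ j y), ?_, ?_, ?_, ?_, ?_⟩
    · simp [adj_hub_port]
    · rw [adj_port_port hi hne]
      cases j <;> simp
    · simp [adj_port_hub]
    · rw [dg_port hi hne, hd]
    · rw [dg_port hi hne, hd]

theorem cr (hi : ∀ j y, σ j (σ j y) = y) (hne : ∀ j y, σ j y ≠ y) (i : Bool) (n : ℕ) (y : Y)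
    (w : V0 Y) : Cr (G0 σ) i ((n, .hub), y) w ↔ w = ((chn i n, .hub), y) := by
  have hd : dC i = dp (if i then 3 else 2) := by cases i <;> rfl
  have h7 : 7 = dp 4 := rfl
  constructor
  · rintro ⟨-, hw, u, x, h1, h2, h3, hu, hx⟩
    have hw := hub_of_dg hi hne hw
    rw [hd] at hu
    rw [h7] at hx
    have hu := port_of_dg hi hne hu
    have hx := port_of_dg hi hne hx
    obtain ⟨⟨n1, a1⟩, y1⟩ := u
    obtain ⟨⟨n2, a2⟩, y2⟩ := x
    obtain ⟨⟨n3, a3⟩, y3⟩ := w
    simp only at hw hu hx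
    subst hw hu hx
    rw [adj_hub_port] at h1
    rw [adj_port_port hi hne] at h2
    rw [adj_port_hub] at h3
    obtain ⟨rfl, rfl⟩ := h1
    obtain ⟨rfl, rfl⟩ := h3
    cases i <;> simp at h2 <;> simp [h2]
  · rintro rfl
    refine ⟨(nb_hub _ _).2, (nb_hub _ _).2, ((n, .port (if i then 3 else 2)), y),
      ((chn i n, .port 4), y), ?_, ?_, ?_, ?_, ?_⟩
    · simp [adj_hub_port]
    · rw [adj_port_port hi hne]
      cases i <;> simp
    · simp [adj_port_hub]
    · rw [dg_port hi hne, hd]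
    · rw [dg_port hi hne, h7]

theorem cr' (hi : ∀ j y, σ j (σ j y) = y) (hne : ∀ j y, σ j y ≠ y) (i : Bool) (n : ℕ) (y : Y)
    (w : V0 Y) : Cr (G0 σ) i w ((n, .hub), y) ↔ w = ((n / 2, .hub), y) ∧ n = chn i (n / 2) := by
  constructor
  · intro h
    have hw := hub_of_dg hi hne h.1
    obtain ⟨⟨n3, a3⟩, y3⟩ := w
    simp only at hw
    subst hw
    rw [cr hi hne] at h
    simp only [Prod.mk.injEq, and_true] at h
    obtain ⟨rfl, rfl⟩ := h
    have : chn i n3 / 2 = n3 := by cases i <;> simp [chn]; omega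
    rw [this]
    exact ⟨rfl, rfl⟩
  · rintro ⟨rfl, h⟩
    rw [cr hi hne, ← h]

end Pool.Agent.W872.MT.A

namespace Pool.Agent.W872.MT.G0A

open Pool.Agent.W927.MT

theorem main : S_G0A := fun _ _ hi hne =>
  ⟨A.encard_le hi hne, A.sr hi hne, A.cr hi hne, A.cr' hi hne⟩

end Pool.Agent.W872.MT.G0A
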