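import Pool.Agent.W872.MT.G0A

/-!
The explicit graph `G0` is Borel and the measure is quasi-invariant.
-/

namespace Pool.Agent.W872.MT.B

open Pool.Agent.W927.MT Pool.Agent.W872.MT.A MeasureTheory
open scoped ENNReal

instance : DiscreteMeasurableSpace J := ⟨fun _ => trivial⟩

variable {Y : Type} [MeasurableSpace Y] [StandardBorelSpace Y] {σ : Bool → Y → Y}

theorem borel_sec (hm : ∀ j, Measurable (σ j)) (hi : ∀ j y, σ j (σ j y) = y)
    (hne : ∀ j y, σ j y ≠ y) (a a' : ℕ × J) :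
    MeasurableSet {q : Y × Y | (G0 σ).Adj (a, q.1) (a', q.2)} := by
  obtain ⟨n, a⟩ := a
  obtain ⟨n', a'⟩ := a'
  have h0 : MeasurableSet {q : Y × Y | q.2 = q.1} :=
    measurableSet_eq_fun measurable_snd measurable_fst
  have h0' : MeasurableSet {q : Y × Y | q.1 = q.2} :=
    measurableSet_eq_fun measurable_fst measurable_snd
  have h1 : ∀ j, MeasurableSet {q : Y × Y | q.2 = σ j q.1} := fun j =>
    measurableSet_eq_fun measurable_snd ((hm j).comp measurable_fst)
  have hc : ∀ p : Prop, MeasurableSet {q : Y × Y | p} := fun p => MeasurableSet.const p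
  cases a with
  | hub =>
    cases a' with
    | hub => simp [adj_hub_hub]
    | port j =>
      simp only [adj_hub_port]
      exact (hc _).inter h0
    | leaf j k => simp [adj_hub_leaf]
  | port j =>
    cases a' with
    | hub =>
      simp only [adj_port_hub]
      exact (hc _).inter h0
    | port j' =>
      simp only [adj_port_port hi hne]
      exact ((hc _).inter ((hc _).inter ((hc _).inter (h1 _)))).union
        (((hc _).inter ((hc _).inter ((hc _).inter (h1 _)))).union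
        (((hc _).inter ((hc _).inter ((hc _).inter h0))).union
        (((hc _).inter ((hc _).inter ((hc _).inter h0))).union
        (((hc _).inter ((hc _).inter ((hc _).inter h0))).union
        ((hc _).inter ((hc _).inter ((hc _).inter h0)))))))
    | leaf j' k =>
      simp only [adj_port_leaf]
      exact (hc _).inter (h0.inter ((hc _).inter (hc _)))
  | leaf j k =>
    cases a' with
    | hub => simp [adj_leaf_hub]
    | port j' =>
      simp only [adj_leaf_port]
      exact (hc _).inter (h0.inter ((hc _).inter (hc _)))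
    | leaf j' k' => simp [adj_leaf_leaf]

theorem borel (hm : ∀ j, Measurable (σ j)) (hi : ∀ j y, σ j (σ j y) = y)
    (hne : ∀ j y, σ j y ≠ y) :
    MeasurableSet {p : V0 Y × V0 Y | (G0 σ).Adj p.1 p.2} := by
  have : {p : V0 Y × V0 Y | (G0 σ).Adj p.1 p.2} = ⋃ (a : ℕ × J) (a' : ℕ × J),
      {p : V0 Y × V0 Y | p.1.1 = a} ∩ {p : V0 Y × V0 Y | p.2.1 = a'} ∩
      ((fun p : V0 Y × V0 Y => (p.1.2, p.2.2)) ⁻¹'
        {q : Y × Y | (G0 σ).Adj (a, q.1) (a', q.2)}) := by
    ext ⟨⟨a, y⟩, ⟨a', y'⟩⟩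
    simp only [Set.mem_setOf_eq, Set.mem_iUnion]
    constructor
    · intro h
      exact ⟨a, a', ⟨rfl, rfl⟩, h⟩
    · rintro ⟨b, b', ⟨h1, h2⟩, h3⟩
      have h1 : a = b := h1
      have h2 : a' = b' := h2
      subst h1 h2
      exact h3
  rw [this]
  refine MeasurableSet.iUnion fun a => MeasurableSet.iUnion fun a' => ?_
  refine MeasurableSet.inter (MeasurableSet.inter ?_ ?_) ?_
  · exact (measurable_fst.comp measurable_fst) (measurableSet_singleton a)
  · exact (measurable_fst.comp measurable_snd) (measurableSet_singleton a')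
  · exact ((measurable_snd.comp measurable_fst).prodMk (measurable_snd.comp measurable_snd))
      (borel_sec hm hi hne a a')

theorem exists_kappa : ∃ κ : Measure (ℕ × J), IsProbabilityMeasure κ ∧ ∀ a, κ {a} ≠ 0 := by
  obtain ⟨f, hf0, hf⟩ := ENNReal.exists_pos_sum_of_countable' one_ne_zero (ℕ × J)
  have h1 : tsum f ≠ ∞ := (hf.trans ENNReal.one_lt_top).ne
  have h0 : tsum f ≠ 0 := by
    intro h
    rw [ENNReal.tsum_eq_zero] at h
    exact (hf0 (0, J.hub)).ne' (h _)
  refine ⟨(PMF.normalize f h0 h1).toMeasure, inferInstance, fun a => ?_⟩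
  rw [PMF.toMeasure_apply_singleton _ _ (measurableSet_singleton a)]
  exact (PMF.mem_support_iff _ _).1 ((PMF.mem_support_normalize_iff h0 h1 a).2 (hf0 a).ne')

theorem null_iff {κ : Measure (ℕ × J)} [IsProbabilityMeasure κ] (hκ : ∀ a, κ {a} ≠ 0)
    {ν : Measure Y} [IsProbabilityMeasure ν] (A : Set (V0 Y)) :
    (κ.prod ν) A = 0 ↔ ∀ a, ν {y | (a, y) ∈ A} = 0 := by
  constructor
  · intro h a
    have h1 := Measure.measure_ae_null_of_prod_null h
    by_contra hne
    have h2 : κ {x | ¬ (fun x => ν (Prod.mk x ⁻¹' A)) x = (0 : ℕ × J → ℝ≥0∞) x} = 0 := h1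
    refine hκ a (measure_mono_null ?_ h2)
    rintro _ rfl
    exact hne
  · intro h
    have h1 : A ⊆ ⋃ a : ℕ × J, {a} ×ˢ {y | (a, y) ∈ A} := by
      rintro ⟨a, y⟩ hA
      simp [hA]
    refine measure_mono_null h1 (measure_iUnion_null fun a => ?_)
    rw [Measure.prod_prod, h a, mul_zero]

theorem adj_cases (hi : ∀ j y, σ j (σ j y) = y) (hne : ∀ j y, σ j y ≠ y) {a a' : ℕ × J}
    {y y' : Y} (h : (G0 σ).Adj (a, y) (a', y')) : y' = y ∨ ∃ j, y' = σ j y := by
  obtain ⟨n, a⟩ := a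
  obtain ⟨n', a'⟩ := a'
  cases a with
  | hub =>
    cases a' with
    | hub => exact absurd h (adj_hub_hub _ _ _ _)
    | port j => exact Or.inl ((adj_hub_port _ _ _ _ _).1 h).2
    | leaf j k => exact absurd h (adj_hub_leaf _ _ _ _ _ _)
  | port j =>
    cases a' with
    | hub => exact Or.inl ((adj_port_hub _ _ _ _ _).1 h).2
    | port j' =>
      rw [adj_port_port hi hne] at h
      rcases h with h | h | h | h | h | h
      · exact Or.inr ⟨_, h.2.2.2⟩
      · exact Or.inr ⟨_, h.2.2.2⟩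
      all_goals exact Or.inl h.2.2.2
    | leaf j' k => exact Or.inl ((adj_port_leaf _ _ _ _ _ _ _).1 h).2.1
  | leaf j k =>
    cases a' with
    | hub => exact absurd h (adj_leaf_hub _ _ _ _ _ _)
    | port j' => exact Or.inl ((adj_leaf_port _ _ _ _ _ _ _).1 h).2.1
    | leaf j' k' => exact absurd h (adj_leaf_leaf _ _ _ _ _ _ _ _)

/-- The neighbours of points of `A`. -/
def nbs (σ : Bool → Y → Y) (A : Set (V0 Y)) : Set (V0 Y) := {x | ∃ y ∈ A, (G0 σ).Adj y x}

theorem nbs_null {κ : Measure (ℕ × J)} [IsProbabilityMeasure κ] (hκ : ∀ a, κ {a} ≠ 0)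
    {ν : Measure Y} [IsProbabilityMeasure ν] (hm : ∀ j, MeasurePreserving (σ j) ν ν)
    (hi : ∀ j y, σ j (σ j y) = y) (hne : ∀ j y, σ j y ≠ y) {A : Set (V0 Y)}
    (hA : (κ.prod ν) A = 0) : (κ.prod ν) (nbs σ A) = 0 := by
  rw [null_iff hκ] at hA ⊢
  intro a'
  have h : {y' | (a', y') ∈ nbs σ A} ⊆ ⋃ a : ℕ × J,
      ({y | (a, y) ∈ A} ∪ ⋃ j, (σ j) ⁻¹' {y | (a, y) ∈ A}) := by
    rintro y' ⟨⟨a, y⟩, hy, hadj⟩
    refine Set.mem_iUnion.2 ⟨a, ?_⟩
    rcases adj_cases hi hne hadj with rfl | ⟨j, rfl⟩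
    · exact Or.inl hy
    · refine Or.inr (Set.mem_iUnion.2 ⟨j, ?_⟩)
      rw [Set.mem_preimage, hi]
      exact hy
  refine measure_mono_null h (measure_iUnion_null fun a => measure_union_null (hA a)
    (measure_iUnion_null fun j => ?_))
  exact (hm j).quasiMeasurePreserving.preimage_null (hA a)

theorem sat_null {κ : Measure (ℕ × J)} [IsProbabilityMeasure κ] (hκ : ∀ a, κ {a} ≠ 0)
    {ν : Measure Y} [IsProbabilityMeasure ν] (hm : ∀ j, MeasurePreserving (σ j) ν ν)
    (hi : ∀ j y, σ j (σ j y) = y) (hne : ∀ j y, σ j y ≠ y) {A : Set (V0 Y)}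
    (hA : (κ.prod ν) A = 0) : (κ.prod ν) {x | ∃ y ∈ A, (G0 σ).Reachable y x} = 0 := by
  have h1 : ∀ k, (κ.prod ν) ((nbs σ)^[k] A) = 0 := by
    intro k
    induction k with
    | zero => exact hA
    | succ k ih =>
      rw [Function.iterate_succ_apply']
      exact nbs_null hκ hm hi hne ih
  have h2 : ∀ (y x : V0 Y) (_ : (G0 σ).Walk y x) (k : ℕ), y ∈ (nbs σ)^[k] A →
      ∃ m, x ∈ (nbs σ)^[m] A := by
    intro y x p
    induction p with
    | nil => exact fun k hk => ⟨k, hk⟩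
    | cons hadj p ih =>
      intro k hk
      refine ih (k + 1) ?_
      rw [Function.iterate_succ_apply']
      exact ⟨_, hk, hadj⟩
  refine measure_mono_null (t := ⋃ m, (nbs σ)^[m] A) ?_ (measure_iUnion_null h1)
  rintro x ⟨y, hy, ⟨p⟩⟩
  exact Set.mem_iUnion.2 (h2 y x p 0 hy)

end Pool.Agent.W872.MT.B

namespace Pool.Agent.W872.MT.G0B

open Pool.Agent.W927.MT

theorem main : S_G0B := by
  intro Y _ _ ν _ σ h
  refine ⟨B.borel (fun j => (h.mp j).measurable) h.inv h.ne, ?_⟩
  obtain ⟨κ, hκ1, hκ⟩ := B.exists_kappa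
  exact ⟨κ, hκ1, hκ, fun A hA => B.sat_null hκ h.mp h.inv h.ne hA⟩

end Pool.Agent.W872.MT.G0B
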